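import Pool.Agent.Helper80.EC_F.Goals
import Pool.Agent.Helper80.EC_F.Tool

/-! Packet RZ of MP_ecc237_nt, Part F: the Rogers-Zudilin step. -/

set_option autoImplicit false

open MeasureTheory Filter Topology Set

namespace EC237.PF.PkRZ

open EC237 EC237.PF

/-! ### signs -/

theorem abs_chi (m : ℤ) : |chi m| ≤ 1 := by
  unfold chi
  split_ifs <;> simp

theorem chi_val (j k : ℕ) : chi (((j + 6 * k : ℕ) : ℤ) + 1) = chi ((j : ℤ) + 1) := by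
  unfold chi
  have h : (((j + 6 * k : ℕ) : ℤ) + 1) % 3 = ((j : ℤ) + 1) % 3 := by push_cast; omega
  rw [h]

theorem sin_third (m : ℕ) : Real.sin (Real.pi * ((m:ℝ) + 1) / 3) =
    Real.sqrt 3 / 2 * ((-1) ^ m * chi ((m:ℤ) + 1)) := by
  obtain ⟨k, j, hj, rfl⟩ : ∃ k j : ℕ, j < 6 ∧ m = j + 6 * k :=
    ⟨m / 6, m % 6, Nat.mod_lt _ (by norm_num), by omega⟩
  have h1 : Real.pi * (((j + 6 * k : ℕ) : ℝ) + 1) / 3 =
      Real.pi * ((j:ℝ) + 1) / 3 + k * (2 * Real.pi) := by push_cast; ring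
  have h2 : (-1:ℝ) ^ (j + 6 * k) = (-1) ^ j := by
    rw [pow_add, pow_mul]; norm_num
  rw [h1, Real.sin_add_nat_mul_two_pi, h2, chi_val]
  interval_cases j
  · have : Real.pi * (((0:ℕ):ℝ) + 1) / 3 = Real.pi / 3 := by push_cast; ring
    rw [this, Real.sin_pi_div_three]
    simp [chi]
  · have : Real.pi * (((1:ℕ):ℝ) + 1) / 3 = Real.pi - Real.pi / 3 := by push_cast; ring
    rw [this, Real.sin_pi_sub, Real.sin_pi_div_three]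
    simp [chi]
  · have : Real.pi * (((2:ℕ):ℝ) + 1) / 3 = Real.pi := by push_cast; ring
    rw [this, Real.sin_pi]
    simp [chi]
  · have : Real.pi * (((3:ℕ):ℝ) + 1) / 3 = Real.pi / 3 + Real.pi := by push_cast; ring
    rw [this, Real.sin_add_pi, Real.sin_pi_div_three]
    norm_num [chi]
  · have : Real.pi * (((4:ℕ):ℝ) + 1) / 3 = 2 * Real.pi - Real.pi / 3 := by push_cast; ring
    rw [this, Real.sin_two_pi_sub, Real.sin_pi_div_three]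
    norm_num [chi]
  · have : Real.pi * (((5:ℕ):ℝ) + 1) / 3 = 2 * Real.pi := by push_cast; ring
    rw [this, Real.sin_two_pi]
    simp [chi]

theorem abs_sn (p : ℕ × ℕ) : |sn p| ≤ 1 := by
  unfold sn
  rw [abs_mul, abs_neg_one_pow, one_mul]
  exact Real.abs_sin_le_one _

theorem abs_sgn2 (r : ℕ × ℕ) : |sgn2 r| = 1 := by
  unfold sgn2
  exact abs_neg_one_pow _

/-- The bijection of the indices. -/
def ee : (ℕ × ℕ) × (ℕ × ℕ) ≃ (ℕ × ℕ) × (ℕ × ℕ) where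
  toFun x := ((x.1.1, x.2.2), (x.2.1, x.1.2))
  invFun x := ((x.1.1, x.2.2), (x.2.1, x.1.2))
  left_inv _ := rfl
  right_inv _ := rfl

/-- Coefficient of `tT`. -/
noncomputable def cT (w : (ℕ × ℕ) × (ℕ × ℕ)) : ℝ :=
  -((-1) ^ ((w.1.1 + 1) * (w.2.2 + 2) + (w.1.2 + 1) * w.2.1)) *
    (chi ((w.1.1:ℤ) + 1) * ((w.1.2:ℝ) + 1) ^ 2 * chi ((w.2.1:ℤ) + 1))

theorem sn_sgn2 (p r : ℕ × ℕ) : sn p * sgn2 r * (((r.2:ℝ) + 1) ^ 2 * chi ((r.1:ℤ) + 1)) =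
    Real.sqrt 3 / 2 * cT (ee (p, r)) := by
  unfold sn sgn2 cT ee
  dsimp only [Equiv.coe_fn_mk]
  rw [sin_third]
  have h1 : (-1:ℝ) ^ ((p.1 + 1) * (p.2 + 2) + (r.2 + 1) * r.1) =
      -((-1) ^ ((p.1 + 1) * (p.2 + 1)) * (-1) ^ p.1 * (-1) ^ ((r.2 + 1) * r.1)) := by
    rw [show (p.1 + 1) * (p.2 + 2) + (r.2 + 1) * r.1 =
      (p.1 + 1) * (p.2 + 1) + p.1 + 1 + (r.2 + 1) * r.1 from by ring, pow_add, pow_add, pow_add]
    ring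
  rw [h1]
  ring

/-! ### the basic integral -/

/-- `J`. -/
noncomputable def JJ (w : (ℕ × ℕ) × (ℕ × ℕ)) : ℝ :=
  ∫ y in Ioi (0:ℝ), y * Real.exp (-(Real.pi * ((w.1.1:ℝ) + 1) * ((w.1.2:ℝ) + 1) / 3 / y) -
    Real.pi * ((w.2.1:ℝ) + 1) * ((w.2.2:ℝ) + 1) * y)

noncomputable def gg (k : ℕ) : ℝ := 1 / ((k:ℝ) + 1) ^ 2

noncomputable def BB (w : (ℕ × ℕ) × (ℕ × ℕ)) : ℝ :=
  (gg w.1.1 * gg w.1.2) * (gg w.2.1 * gg w.2.2)

theorem gg_nonneg (k : ℕ) : 0 ≤ gg k := by unfold gg; positivity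

theorem summable_gg : Summable gg := by
  have h := (summable_nat_add_iff 1).2 (Real.summable_one_div_nat_pow.2 (by norm_num : 1 < 2))
  refine h.congr fun k => ?_
  unfold gg
  push_cast
  rfl

theorem summable_BB : Summable BB := by
  have h1 : Summable (fun x : ℕ × ℕ => gg x.1 * gg x.2) :=
    summable_gg.mul_of_nonneg summable_gg gg_nonneg gg_nonneg
  have h0 : (0 : ℕ × ℕ → ℝ) ≤ fun x : ℕ × ℕ => gg x.1 * gg x.2 :=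
    fun x => mul_nonneg (gg_nonneg _) (gg_nonneg _)
  exact h1.mul_of_nonneg h1 h0 h0

theorem JJ_nonneg (h4 : G_INT3) (w : (ℕ × ℕ) × (ℕ × ℕ)) : 0 ≤ JJ w :=
  (h4 (Real.pi * ((w.1.1:ℝ) + 1) * ((w.1.2:ℝ) + 1) / 3)
    (Real.pi * ((w.2.1:ℝ) + 1) * ((w.2.2:ℝ) + 1)) (by positivity) (by positivity)).1

theorem JJ_le (h4 : G_INT3) (w : (ℕ × ℕ) × (ℕ × ℕ)) :
    ((w.1.2:ℝ) + 1) ^ 2 * JJ w ≤ 233280 * BB w := by
  have h := (h4 (Real.pi * ((w.1.1:ℝ) + 1) * ((w.1.2:ℝ) + 1) / 3)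
    (Real.pi * ((w.2.1:ℝ) + 1) * ((w.2.2:ℝ) + 1)) (by positivity) (by positivity)).2
  have hm : (1:ℝ) ≤ (w.1.1:ℝ) + 1 := by linarith [Nat.cast_nonneg (α := ℝ) w.1.1]
  have hv : (1:ℝ) ≤ (w.1.2:ℝ) + 1 := by linarith [Nat.cast_nonneg (α := ℝ) w.1.2]
  have hM : (1:ℝ) ≤ (w.2.1:ℝ) + 1 := by linarith [Nat.cast_nonneg (α := ℝ) w.2.1]
  have hn : (1:ℝ) ≤ (w.2.2:ℝ) + 1 := by linarith [Nat.cast_nonneg (α := ℝ) w.2.2]
  unfold BB gg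
  unfold JJ
  generalize (w.1.1:ℝ) + 1 = m at *
  generalize (w.1.2:ℝ) + 1 = v at *
  generalize (w.2.1:ℝ) + 1 = M at *
  generalize (w.2.2:ℝ) + 1 = n at *
  have hm0 : 0 < m := by linarith
  have hv0 : 0 < v := by linarith
  have hM0 : 0 < M := by linarith
  have hn0 : 0 < n := by linarith
  have hpi : (1:ℝ) ≤ Real.pi := by linarith [Real.pi_gt_three]
  refine (mul_le_mul_of_nonneg_left h (by positivity)).trans ?_
  have e1 : v ^ 2 * (2880 / ((Real.pi * m * v / 3) ^ 4 * (Real.pi * M * n) ^ 6)) =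
      233280 * (v ^ 2 / (Real.pi ^ 10 * (m ^ 4 * v ^ 4 * (M ^ 6 * n ^ 6)))) := by
    field_simp
    norm_num
  rw [e1]
  refine mul_le_mul_of_nonneg_left ?_ (by norm_num)
  have e2 : 1 / m ^ 2 * (1 / v ^ 2) * (1 / M ^ 2 * (1 / n ^ 2)) =
      1 / (m ^ 2 * v ^ 2 * (M ^ 2 * n ^ 2)) := by field_simp
  rw [e2, div_le_div_iff₀ (by positivity) (by positivity)]
  have k1 : m ^ 2 ≤ m ^ 4 := pow_le_pow_right₀ hm (by norm_num)
  have k2 : M ^ 2 ≤ M ^ 6 := pow_le_pow_right₀ hM (by norm_num)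
  have k3 : n ^ 2 ≤ n ^ 6 := pow_le_pow_right₀ hn (by norm_num)
  calc v ^ 2 * (m ^ 2 * v ^ 2 * (M ^ 2 * n ^ 2)) = m ^ 2 * v ^ 4 * (M ^ 2 * n ^ 2) := by ring
    _ ≤ m ^ 4 * v ^ 4 * (M ^ 6 * n ^ 6) := by gcongr
    _ ≤ Real.pi ^ 10 * (m ^ 4 * v ^ 4 * (M ^ 6 * n ^ 6)) :=
        le_mul_of_one_le_left (by positivity) (one_le_pow₀ hpi)
    _ = 1 * (Real.pi ^ 10 * (m ^ 4 * v ^ 4 * (M ^ 6 * n ^ 6))) := by ring

/-! ### the terms -/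

/-- First coefficient. -/
noncomputable def KK (p r : ℕ × ℕ) : ℝ :=
  -(Real.pi ^ 5 / 36) * (sn p * (((p.1:ℝ) + 1) / ((p.2:ℝ) + 1)) *
    (chi ((r.1:ℤ) + 1) * (((r.2:ℝ) + 1) ^ 2 / ((r.1:ℝ) + 1) ^ 2) * sgn2 r))

theorem term_eq {y : ℝ} (hy : 0 < y) (p r : ℕ × ℕ) : tM0 y p * tM2 y r = KK p r *
    ((1 + Real.pi * ((r.1:ℝ) + 1) * ((r.2:ℝ) + 1) * y) / y ^ 2 *
      Real.exp (-(Real.pi * ((p.1:ℝ) + 1) * ((p.2:ℝ) + 1) / 3 / y) -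
        Real.pi * ((r.1:ℝ) + 1) * ((r.2:ℝ) + 1) * y)) := by
  have h1 : Real.exp (-(Real.pi * ((p.1:ℝ) + 1) * ((p.2:ℝ) + 1) / 3 / y) -
        Real.pi * ((r.1:ℝ) + 1) * ((r.2:ℝ) + 1) * y) =
      Real.exp (-(Real.pi * ((p.1:ℝ) + 1) * ((p.2:ℝ) + 1) / (3 * y))) * QQ y r := by
    unfold QQ
    rw [← Real.exp_add]
    congr 1
    rw [div_div]
    ring
  rw [h1]
  unfold tM0 tM2 KK
  field_simp
  ring

theorem int_E1 (h2 : G_INT1) (h3 : G_INT2) {m n M v : ℝ} (hm : 0 < m) (hn : 0 < n) (hM : 0 < M)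
    (hv : 0 < v) : ∫ y in Ioi (0:ℝ), (1 + Real.pi * M * v * y) / y ^ 2 *
      Real.exp (-(Real.pi * m * n / 3 / y) - Real.pi * M * v * y) =
    3 * Real.pi * M ^ 2 * n / m * ∫ y in Ioi (0:ℝ), y * Real.exp (-(Real.pi * m * v / 3 / y) -
      Real.pi * M * n * y) := by
  have hpi := Real.pi_pos
  rw [h3 (Real.pi * m * n / 3) (Real.pi * M * v) (n / v) (by positivity) (by positivity)
    (by positivity)]
  have e1 : Real.pi * m * n / 3 / (n / v) = Real.pi * m * v / 3 := by field_simp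
  have e2 : Real.pi * M * v * (n / v) = Real.pi * M * n := by field_simp
  rw [e1, e2, (h2 (Real.pi * m * v / 3) (Real.pi * M * n) (by positivity) (by positivity)).2.2]
  rw [← mul_assoc]
  congr 1
  field_simp

theorem int_term (h2 : G_INT1) (h3 : G_INT2) (p r : ℕ × ℕ) :
    ∫ y in Ioi (0:ℝ), (1 + Real.pi * ((r.1:ℝ) + 1) * ((r.2:ℝ) + 1) * y) / y ^ 2 *
      Real.exp (-(Real.pi * ((p.1:ℝ) + 1) * ((p.2:ℝ) + 1) / 3 / y) -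
        Real.pi * ((r.1:ℝ) + 1) * ((r.2:ℝ) + 1) * y) =
    3 * Real.pi * ((r.1:ℝ) + 1) ^ 2 * ((p.2:ℝ) + 1) / ((p.1:ℝ) + 1) * JJ (ee (p, r)) :=
  int_E1 h2 h3 (m := (p.1:ℝ) + 1) (n := (p.2:ℝ) + 1) (M := (r.1:ℝ) + 1) (v := (r.2:ℝ) + 1)
    (by positivity) (by positivity) (by positivity) (by positivity)

theorem integrable_A (h2 : G_INT1) (p r : ℕ × ℕ) :
    IntegrableOn (fun y => tM0 y p * tM2 y r) (Ioi 0) := by
  have h := ((h2 (Real.pi * ((p.1:ℝ) + 1) * ((p.2:ℝ) + 1) / 3)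
    (Real.pi * ((r.1:ℝ) + 1) * ((r.2:ℝ) + 1)) (by positivity) (by positivity)).1).const_mul
      (KK p r)
  refine IntegrableOn.congr_fun h (fun y hy => ?_) measurableSet_Ioi
  exact (term_eq hy p r).symm

theorem int_A (h2 : G_INT1) (h3 : G_INT2) (p r : ℕ × ℕ) :
    ∫ y in Ioi (0:ℝ), tM0 y p * tM2 y r =
      KK p r * (3 * Real.pi * ((r.1:ℝ) + 1) ^ 2 * ((p.2:ℝ) + 1) / ((p.1:ℝ) + 1) *
        JJ (ee (p, r))) := by
  rw [setIntegral_congr_fun measurableSet_Ioi (fun y hy => term_eq hy p r),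
    integral_const_mul, int_term h2 h3]

theorem int_norm_A (h2 : G_INT1) (h3 : G_INT2) (p r : ℕ × ℕ) :
    ∫ y in Ioi (0:ℝ), ‖tM0 y p * tM2 y r‖ =
      |KK p r| * (3 * Real.pi * ((r.1:ℝ) + 1) ^ 2 * ((p.2:ℝ) + 1) / ((p.1:ℝ) + 1) *
        JJ (ee (p, r))) := by
  rw [← int_term h2 h3, ← integral_const_mul]
  refine setIntegral_congr_fun measurableSet_Ioi (fun y hy => ?_)
  have hy' : 0 < y := hy
  rw [term_eq hy' p r, norm_mul, Real.norm_eq_abs, Real.norm_eq_abs]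
  congr 1
  rw [abs_of_nonneg]
  positivity

theorem abs_KK (p r : ℕ × ℕ) : |KK p r| ≤
    Real.pi ^ 5 / 36 * ((((p.1:ℝ) + 1) / ((p.2:ℝ) + 1)) *
      (((r.2:ℝ) + 1) ^ 2 / ((r.1:ℝ) + 1) ^ 2)) := by
  have hpi := Real.pi_pos
  unfold KK
  rw [abs_mul, abs_neg, abs_mul, abs_mul, abs_mul, abs_mul, abs_sgn2, mul_one,
    abs_of_nonneg (show 0 ≤ Real.pi ^ 5 / 36 by positivity),
    abs_of_nonneg (show 0 ≤ ((p.1:ℝ) + 1) / ((p.2:ℝ) + 1) by positivity),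
    abs_of_nonneg (show 0 ≤ ((r.2:ℝ) + 1) ^ 2 / ((r.1:ℝ) + 1) ^ 2 by positivity)]
  refine mul_le_mul_of_nonneg_left ?_ (by positivity)
  have h1 : |sn p| * (((p.1:ℝ) + 1) / ((p.2:ℝ) + 1)) ≤ 1 * (((p.1:ℝ) + 1) / ((p.2:ℝ) + 1)) :=
    mul_le_mul_of_nonneg_right (abs_sn p) (by positivity)
  have h2 : |chi ((r.1:ℤ) + 1)| * (((r.2:ℝ) + 1) ^ 2 / ((r.1:ℝ) + 1) ^ 2) ≤
      1 * (((r.2:ℝ) + 1) ^ 2 / ((r.1:ℝ) + 1) ^ 2) :=
    mul_le_mul_of_nonneg_right (abs_chi _) (by positivity)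
  rw [one_mul] at h1 h2
  exact mul_le_mul h1 h2 (by positivity) (by positivity)

theorem int_norm_A_le (h2 : G_INT1) (h3 : G_INT2) (h4 : G_INT3) (p r : ℕ × ℕ) :
    ∫ y in Ioi (0:ℝ), ‖tM0 y p * tM2 y r‖ ≤ Real.pi ^ 6 / 12 * 233280 * BB (ee (p, r)) := by
  rw [int_norm_A h2 h3]
  have hJ := JJ_nonneg h4 (ee (p, r))
  have hJ' := JJ_le h4 (ee (p, r))
  have hpi := Real.pi_pos
  refine (mul_le_mul_of_nonneg_right (abs_KK p r) (by positivity)).trans ?_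
  have e1 : Real.pi ^ 5 / 36 * ((((p.1:ℝ) + 1) / ((p.2:ℝ) + 1)) *
      (((r.2:ℝ) + 1) ^ 2 / ((r.1:ℝ) + 1) ^ 2)) *
      (3 * Real.pi * ((r.1:ℝ) + 1) ^ 2 * ((p.2:ℝ) + 1) / ((p.1:ℝ) + 1) * JJ (ee (p, r))) =
      Real.pi ^ 6 / 12 * (((r.2:ℝ) + 1) ^ 2 * JJ (ee (p, r))) := by
    field_simp
    ring
  rw [e1, mul_assoc (Real.pi ^ 6 / 12)]
  exact mul_le_mul_of_nonneg_left hJ' (by positivity)

theorem summable_A (h2 : G_INT1) (h3 : G_INT2) (h4 : G_INT3) :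
    Summable (fun x : (ℕ × ℕ) × (ℕ × ℕ) => ∫ y in Ioi (0:ℝ), ‖tM0 y x.1 * tM2 y x.2‖) := by
  have h5 : Summable (fun x => BB (ee x)) := ee.summable_iff.2 summable_BB
  exact Summable.of_nonneg_of_le (fun x => integral_nonneg fun y => norm_nonneg _)
    (fun x => int_norm_A_le h2 h3 h4 x.1 x.2) (h5.mul_left (Real.pi ^ 6 / 12 * 233280))

/-! ### the second family -/

theorem tT_eq (y : ℝ) (w : (ℕ × ℕ) × (ℕ × ℕ)) : tT y w / y ^ 3 = cT w *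
    (Real.exp (-(3 * (Real.pi * ((w.1.1:ℝ) + 1) * ((w.1.2:ℝ) + 1) / 3) * y) -
      Real.pi * ((w.2.1:ℝ) + 1) * ((w.2.2:ℝ) + 1) / (3 * y)) / y ^ 3) := by
  have h1 : 3 * (Real.pi * ((w.1.1:ℝ) + 1) * ((w.1.2:ℝ) + 1) / 3) * y =
      Real.pi * ((w.1.1:ℝ) + 1) * ((w.1.2:ℝ) + 1) * y := by ring
  rw [h1]
  unfold tT cT
  ring

theorem int4 (h5 : G_INT4) (w : (ℕ × ℕ) × (ℕ × ℕ)) :
    IntegrableOn (fun y : ℝ => Real.exp (-(3 * (Real.pi * ((w.1.1:ℝ) + 1) * ((w.1.2:ℝ) + 1) / 3) *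
      y) - Real.pi * ((w.2.1:ℝ) + 1) * ((w.2.2:ℝ) + 1) / (3 * y)) / y ^ 3) (Ioi 0) ∧
    ∫ y in Ioi (0:ℝ), Real.exp (-(3 * (Real.pi * ((w.1.1:ℝ) + 1) * ((w.1.2:ℝ) + 1) / 3) * y) -
      Real.pi * ((w.2.1:ℝ) + 1) * ((w.2.2:ℝ) + 1) / (3 * y)) / y ^ 3 = 9 * JJ w := by
  obtain ⟨h6, h7⟩ := h5 (Real.pi * ((w.1.1:ℝ) + 1) * ((w.1.2:ℝ) + 1) / 3)
    (Real.pi * ((w.2.1:ℝ) + 1) * ((w.2.2:ℝ) + 1)) (by positivity) (by positivity)
  refine ⟨h6, ?_⟩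
  unfold JJ
  rw [h7]
  ring

theorem integrable_T (h5 : G_INT4) (w : (ℕ × ℕ) × (ℕ × ℕ)) :
    IntegrableOn (fun y => tT y w / y ^ 3) (Ioi 0) := by
  have h := ((int4 h5 w).1).const_mul (cT w)
  refine IntegrableOn.congr_fun h (fun y _ => ?_) measurableSet_Ioi
  exact (tT_eq y w).symm

theorem int_T (h5 : G_INT4) (w : (ℕ × ℕ) × (ℕ × ℕ)) :
    ∫ y in Ioi (0:ℝ), tT y w / y ^ 3 = cT w * (9 * JJ w) := by
  rw [setIntegral_congr_fun measurableSet_Ioi (fun y _ => tT_eq y w),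
    integral_const_mul, (int4 h5 w).2]

theorem int_norm_T (h5 : G_INT4) (w : (ℕ × ℕ) × (ℕ × ℕ)) :
    ∫ y in Ioi (0:ℝ), ‖tT y w / y ^ 3‖ = |cT w| * (9 * JJ w) := by
  rw [← (int4 h5 w).2, ← integral_const_mul]
  refine setIntegral_congr_fun measurableSet_Ioi (fun y hy => ?_)
  have hy' : 0 < y := hy
  rw [tT_eq y w, norm_mul, Real.norm_eq_abs, Real.norm_eq_abs]
  congr 1
  rw [abs_of_nonneg]
  positivity

theorem abs_cT (w : (ℕ × ℕ) × (ℕ × ℕ)) : |cT w| ≤ ((w.1.2:ℝ) + 1) ^ 2 := by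
  unfold cT
  rw [abs_mul, abs_neg, abs_neg_one_pow, one_mul, abs_mul, abs_mul,
    abs_of_nonneg (show 0 ≤ ((w.1.2:ℝ) + 1) ^ 2 by positivity)]
  have h1 := abs_chi ((w.1.1:ℤ) + 1)
  have h2 := abs_chi ((w.2.1:ℤ) + 1)
  calc |chi ((w.1.1:ℤ) + 1)| * ((w.1.2:ℝ) + 1) ^ 2 * |chi ((w.2.1:ℤ) + 1)|
      ≤ 1 * ((w.1.2:ℝ) + 1) ^ 2 * 1 := by gcongr
    _ = ((w.1.2:ℝ) + 1) ^ 2 := by ring

theorem summable_T (h4 : G_INT3) (h5 : G_INT4) :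
    Summable (fun w : (ℕ × ℕ) × (ℕ × ℕ) => ∫ y in Ioi (0:ℝ), ‖tT y w / y ^ 3‖) := by
  refine Summable.of_nonneg_of_le (fun x => integral_nonneg fun y => norm_nonneg _)
    (fun w => ?_) (summable_BB.mul_left (9 * 233280))
  rw [int_norm_T h5]
  have hJ := JJ_nonneg h4 w
  have hJ' := JJ_le h4 w
  calc |cT w| * (9 * JJ w) ≤ ((w.1.2:ℝ) + 1) ^ 2 * (9 * JJ w) :=
        mul_le_mul_of_nonneg_right (abs_cT w) (by positivity)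
    _ = 9 * (((w.1.2:ℝ) + 1) ^ 2 * JJ w) := by ring
    _ ≤ 9 * (233280 * BB w) := mul_le_mul_of_nonneg_left hJ' (by norm_num)
    _ = 9 * 233280 * BB w := by ring

/-- The integrals of the two families agree. -/
theorem int_A_eq (h2 : G_INT1) (h3 : G_INT2) (h5 : G_INT4) (x : (ℕ × ℕ) × (ℕ × ℕ)) :
    ∫ y in Ioi (0:ℝ), tM0 y x.1 * tM2 y x.2 =
      -(Real.pi ^ 6 / 108) * (Real.sqrt 3 / 2) * ∫ y in Ioi (0:ℝ), tT y (ee x) / y ^ 3 := by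
  rw [int_A h2 h3, int_T h5]
  have h := sn_sgn2 x.1 x.2
  have e1 : KK x.1 x.2 * (3 * Real.pi * ((x.2.1:ℝ) + 1) ^ 2 * ((x.1.2:ℝ) + 1) /
      ((x.1.1:ℝ) + 1) * JJ (ee (x.1, x.2))) =
      -(Real.pi ^ 6 / 12) * (sn x.1 * sgn2 x.2 * (((x.2.2:ℝ) + 1) ^ 2 *
        chi ((x.2.1:ℤ) + 1))) * JJ (ee (x.1, x.2)) := by
    unfold KK
    field_simp
    ring
  rw [e1, h]
  ring

theorem thm (h1 : G_SUMT) (h2 : G_INT1) (h3 : G_INT2) (h4 : G_INT3) (h5 : G_INT4) :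
    EC237.PF.G_RZ := by
  have hA : ∀ x : (ℕ × ℕ) × (ℕ × ℕ),
      Integrable (fun y => tM0 y x.1 * tM2 y x.2) (volume.restrict (Ioi (0:ℝ))) :=
    fun x => integrable_A h2 x.1 x.2
  have hT : ∀ w : (ℕ × ℕ) × (ℕ × ℕ),
      Integrable (fun y => tT y w / y ^ 3) (volume.restrict (Ioi (0:ℝ))) :=
    fun w => integrable_T h5 w
  have sA := summable_A h2 h3 h4
  have sT := summable_T h4 h5
  have pA : ∀ y ∈ Ioi (0:ℝ), ∑' x : (ℕ × ℕ) × (ℕ × ℕ), tM0 y x.1 * tM2 y x.2 =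
      M0e y * M2s y := by
    intro y hy
    have a1 : Summable (fun p => ‖tM0 y p‖) := (h1.1 y hy).norm
    have a2 : Summable (fun p => ‖tM2 y p‖) := (h1.2.1 y hy).norm
    exact (tsum_mul_tsum_of_summable_norm a1 a2).symm
  have pT : ∀ y ∈ Ioi (0:ℝ), Real.sqrt 3 / 2 * ∑' w : (ℕ × ℕ) × (ℕ × ℕ), tT y w / y ^ 3 =
      TT y / y ^ 3 := by
    intro y _
    rw [tsum_div_const]
    unfold TT
    ring
  have iA : IntegrableOn (fun y => ∑' x : (ℕ × ℕ) × (ℕ × ℕ), tM0 y x.1 * tM2 y x.2) (Ioi 0) :=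
    integrable_tsum hA sA
  have iT : IntegrableOn (fun y => ∑' w : (ℕ × ℕ) × (ℕ × ℕ), tT y w / y ^ 3) (Ioi 0) :=
    integrable_tsum hT sT
  refine ⟨IntegrableOn.congr_fun iA pA measurableSet_Ioi,
    IntegrableOn.congr_fun (iT.const_mul _) pT measurableSet_Ioi, ?_⟩
  rw [← setIntegral_congr_fun measurableSet_Ioi pA, ← setIntegral_congr_fun measurableSet_Ioi pT,
    integral_const_mul]
  have q1 := (hasSum_integral_of_summable_integral_norm hA sA).tsum_eq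
  have q2 := (hasSum_integral_of_summable_integral_norm hT sT).tsum_eq
  rw [← q1, ← q2]
  rw [tsum_congr (fun x => int_A_eq h2 h3 h5 x), tsum_mul_left]
  rw [ee.tsum_eq (fun w => ∫ y in Ioi (0:ℝ), tT y w / y ^ 3)]
  ring

end EC237.PF.PkRZ
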